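import Pool.Agent.TH300.FC.Dual

set_option autoImplicit false

/-!
# Double covers by as many circuits as the largest bond: graphs with a bond whose complement is a
# forest

Graphs are finite, with parallel edges allowed: `MGraph V E` is a graph with vertex set `V` and
edge set `E`, and `G.IsCircuit C` says that `C` is the edge set of a connected 2-regular subgraph
(both from `Pool.Agent.H126R2.CDC.Defs`); `cut G X` is the set of the edges with exactly one end
in `X` (from `Pool.Agent.TH300.FC.Dual`).

Idea of the proof.  Number the edges of the bond `B` cyclically.  For consecutive `b, b'` there is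
a circuit meeting `B` exactly in `b` and `b'`.  An edge `t` outside `B` lies in a cut contained in
`B ∪ {t}`, and the circuit of `b, b'` contains `t` if exactly one of `b, b'` lies in this cut;
this happens for at least two consecutive pairs, as the cut contains some but not all of `B`.
-/

namespace Pool.Agent.Results.MP_596978_co.ForestComplement

open Finset
open Pool.Agent.H126R2.CDC
open Pool.Agent.TH300.FC (cut even_inter cut_or_circuit)

/-- `B` is a bond of `G`: an inclusion-minimal nonempty edge cut -/
def IsBond {V E : Type} [Fintype V] [Fintype E] (G : MGraph V E) (B : Finset E) : Prop :=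
  B.Nonempty ∧ (∃ X, cut G X = B) ∧
    ∀ X, (cut G X).Nonempty → cut G X ⊆ B → cut G X = B

lemma step {k : ℕ} (P : Fin (k + 1) → Prop) (p q : Fin (k + 1)) (hp : P p) (hq : ¬ P q) :
    ∃ i, P i ∧ ¬ P (i + 1) := by
  by_contra hcon
  push Not at hcon
  have h1 : ∀ n : ℕ, P ⟨(p.val + n) % (k + 1), Nat.mod_lt _ (Nat.succ_pos k)⟩ := by
    intro n
    induction n with
    | zero =>
      have h2 : (⟨(p.val + 0) % (k + 1), Nat.mod_lt _ (Nat.succ_pos k)⟩ : Fin (k + 1)) = p := by
        apply Fin.ext
        show (p.val + 0) % (k + 1) = p.val
        rw [add_zero, Nat.mod_eq_of_lt p.isLt]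
      rw [h2]; exact hp
    | succ n ih =>
      have h2 := hcon _ ih
      have h3 : (⟨(p.val + n) % (k + 1), Nat.mod_lt _ (Nat.succ_pos k)⟩ : Fin (k + 1)) + 1 =
          ⟨(p.val + (n + 1)) % (k + 1), Nat.mod_lt _ (Nat.succ_pos k)⟩ := by
        apply Fin.ext
        rw [Fin.val_add]
        show ((p.val + n) % (k + 1) + 1 % (k + 1)) % (k + 1) = (p.val + (n + 1)) % (k + 1)
        rw [← Nat.add_mod, add_assoc]
      rw [h3] at h2; exact h2
  apply hq
  have h2 := h1 (q.val + (k + 1) - p.val)
  have h3 : (⟨(p.val + (q.val + (k + 1) - p.val)) % (k + 1),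
      Nat.mod_lt _ (Nat.succ_pos k)⟩ : Fin (k + 1)) = q := by
    apply Fin.ext
    show (p.val + (q.val + (k + 1) - p.val)) % (k + 1) = q.val
    have h4 : p.val + (q.val + (k + 1) - p.val) = q.val + (k + 1) := by
      have := p.isLt
      omega
    rw [h4, Nat.add_mod_right, Nat.mod_eq_of_lt q.isLt]
  rw [h3] at h2
  exact h2

variable {V E : Type} [Fintype V] [DecidableEq V] [Fintype E] [DecidableEq E]

lemma pair_circuit (G : MGraph V E) (B : Finset E) (hB : IsBond G B) (e f : E) (he : e ∈ B)
    (hf : f ∈ B) (hef : e ≠ f) :
    ∃ C, G.IsCircuit C ∧ e ∈ C ∧ f ∈ C ∧ ∀ g ∈ C, g ∈ B → g = e ∨ g = f := by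
  rcases cut_or_circuit G ((B.erase e).erase f) e (by simp) with ⟨X, h1, h2⟩ | ⟨C, h1, h2, h3⟩
  · exfalso
    have h4 : cut G X ⊆ B := by
      intro g hg
      rcases h2 g hg with rfl | h
      · exact he
      · exact Finset.mem_of_mem_erase (Finset.mem_of_mem_erase h)
    have h5 := hB.2.2 X ⟨e, h1⟩ h4
    have h6 : f ∈ cut G X := by rw [h5]; exact hf
    rcases h2 f h6 with h7 | h7
    · exact hef h7.symm
    · exact absurd rfl (Finset.ne_of_mem_erase h7)
  · have h4 : ∀ g ∈ C, g ∈ B → g = e ∨ g = f := by
      intro g hg hgB
      by_contra hcon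
      push Not at hcon
      exact h3 g hg (Finset.mem_erase.2 ⟨hcon.2, Finset.mem_erase.2 ⟨hcon.1, hgB⟩⟩)
    refine ⟨C, h1, h2, ?_, h4⟩
    by_contra hfC
    obtain ⟨X, hX⟩ := hB.2.1
    have h5 := even_inter G C h1 X
    rw [hX] at h5
    have h6 : C ∩ B = {e} := by
      ext g
      rw [Finset.mem_inter, Finset.mem_singleton]
      constructor
      · rintro ⟨hg, hgB⟩
        rcases h4 g hg hgB with h | h
        · exact h
        · rw [h] at hg; exact absurd hg hfC
      · rintro rfl
        exact ⟨h2, he⟩
    rw [h6, Finset.card_singleton] at h5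
    exact absurd h5 (by decide)

/-- Let `G` be a finite graph in which any two edges lie together in some circuit, and suppose
that `G` has a bond `B` meeting every circuit (the complement of `B` is a forest; equivalently the
vertex set is partitioned into two sets inducing trees, if `G` has no isolated vertices). Then
`G` has a multiset of exactly `c` circuits, `c` the largest size of a bond of `G`, in which every
edge of `G` lies at least twice. -/
theorem result {V E : Type} [Fintype V] [DecidableEq V] [Fintype E] [DecidableEq E]
    (G : MGraph V E) (hconn : ∀ e f : E, ∃ C, G.IsCircuit C ∧ e ∈ C ∧ f ∈ C)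
    (B : Finset E) (hB : IsBond G B) (hBC : ∀ C, G.IsCircuit C → ∃ e ∈ C, e ∈ B)
    (c : ℕ) (hc : IsGreatest {k : ℕ | ∃ D, IsBond G D ∧ D.card = k} c) :
    ∃ F : Multiset (Finset E), Multiset.card F = c ∧ (∀ C ∈ F, G.IsCircuit C) ∧
      ∀ e, 2 ≤ F.countP (fun C => e ∈ C) := by
  classical
  obtain ⟨X0, hX0⟩ := hB.2.1
  -- `B` has at least two edges
  have hB2 : ∀ e ∈ B, ∃ f ∈ B, f ≠ e := by
    intro e he
    obtain ⟨C, hC, heC, _⟩ := hconn e e
    by_contra hcon
    push Not at hcon
    have h1 := even_inter G C hC X0
    have h2 : C ∩ cut G X0 = {e} := by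
      ext g
      rw [Finset.mem_inter, Finset.mem_singleton, hX0]
      exact ⟨fun h => hcon g h.2, fun h => by rw [h]; exact ⟨heC, he⟩⟩
    rw [h2, Finset.card_singleton] at h1
    exact absurd h1 (by decide)
  obtain ⟨k, hk⟩ : ∃ k, B.card = k + 1 := ⟨B.card - 1, by
    have := Finset.card_pos.2 hB.1
    omega⟩
  let σ : Fin (k + 1) ≃ B := (Finset.equivFinOfCardEq hk).symm
  let β : Fin (k + 1) → E := fun i => (σ i).1
  have hβB : ∀ i, β i ∈ B := fun i => (σ i).2
  have hβinj : ∀ i j, β i = β j → i = j := fun i j h => σ.injective (Subtype.ext h)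
  have hβsurj : ∀ e ∈ B, ∃ i, β i = e := fun e he => ⟨σ.symm ⟨e, he⟩, by simp [β]⟩
  have hk1 : 1 ≤ k := by
    by_contra hcon
    have hk0 : k = 0 := by omega
    subst hk0
    obtain ⟨e, he⟩ := hB.1
    obtain ⟨f, hf, hfe⟩ := hB2 e he
    obtain ⟨i, hi⟩ := hβsurj e he
    obtain ⟨j, hj⟩ := hβsurj f hf
    apply hfe
    have hij : i = j := Fin.ext (by omega)
    rw [← hi, ← hj, hij]
  have hsucc : ∀ i : Fin (k + 1), i ≠ i + 1 := by
    intro i h
    have h1 : (1 : Fin (k + 1)) = 0 := by
      have h2 : i + 0 = i + 1 := by rw [add_zero]; exact h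
      exact (add_left_cancel h2).symm
    have h3 : 1 % (k + 1) = 0 := congrArg Fin.val h1
    rw [Nat.mod_eq_of_lt (by omega)] at h3
    exact absurd h3 one_ne_zero
  choose C hC1 hC2 hC3 hC4 using fun i : Fin (k + 1) =>
    pair_circuit G B hB (β i) (β (i + 1)) (hβB _) (hβB _) (fun h => hsucc i (hβinj _ _ h))
  -- every edge is in two of the circuits
  have key : ∀ e, ∃ i j, i ≠ j ∧ e ∈ C i ∧ e ∈ C j := by
    intro e
    by_cases he : e ∈ B
    · obtain ⟨j, rfl⟩ := hβsurj e he
      refine ⟨j, j - 1, ?_, hC2 j, ?_⟩
      · intro h
        apply hsucc (j - 1)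
        rw [sub_add_cancel]
        exact h.symm
      · have := hC3 (j - 1)
        rw [sub_add_cancel] at this
        exact this
    · rcases cut_or_circuit G B e he with ⟨X, h1, h2⟩ | ⟨D, h1, h2, h3⟩
      · -- the circuit `C i` contains `e` if exactly one of its two edges in `B` is in the cut
        have hpar : ∀ i, ¬ (β i ∈ cut G X ↔ β (i + 1) ∈ cut G X) → e ∈ C i := by
          intro i hi
          by_contra heC
          have h4 := even_inter G (C i) (hC1 i) X
          by_cases h5 : β i ∈ cut G X
          · have h6 : β (i + 1) ∉ cut G X := fun h6 => hi ⟨fun _ => h6, fun _ => h5⟩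
            have h7 : C i ∩ cut G X = {β i} := by
              ext g
              rw [Finset.mem_inter, Finset.mem_singleton]
              constructor
              · rintro ⟨hg, hgX⟩
                rcases h2 g hgX with h | h
                · rw [h] at hg; exact absurd hg heC
                · rcases hC4 i g hg h with h' | h'
                  · exact h'
                  · rw [h'] at hgX; exact absurd hgX h6
              · intro h; rw [h]; exact ⟨hC2 i, h5⟩
            rw [h7, Finset.card_singleton] at h4
            exact absurd h4 (by decide)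
          · have h6 : β (i + 1) ∈ cut G X := by
              by_contra h6
              exact hi ⟨fun h => absurd h h5, fun h => absurd h h6⟩
            have h7 : C i ∩ cut G X = {β (i + 1)} := by
              ext g
              rw [Finset.mem_inter, Finset.mem_singleton]
              constructor
              · rintro ⟨hg, hgX⟩
                rcases h2 g hgX with h | h
                · rw [h] at hg; exact absurd hg heC
                · rcases hC4 i g hg h with h' | h'
                  · rw [h'] at hgX; exact absurd hgX h5
                  · exact h'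
              · intro h; rw [h]; exact ⟨hC3 i, h6⟩
            rw [h7, Finset.card_singleton] at h4
            exact absurd h4 (by decide)
        obtain ⟨D, hD, heD, _⟩ := hconn e e
        have hDX := even_inter G D hD X
        have hDB := even_inter G D hD X0
        rw [hX0] at hDB
        -- some edge of `B` is in the cut
        have hp : ∃ p, β p ∈ cut G X := by
          by_contra hcon
          push Not at hcon
          have h4 : D ∩ cut G X = {e} := by
            ext g
            rw [Finset.mem_inter, Finset.mem_singleton]
            constructor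
            · rintro ⟨hg, hgX⟩
              rcases h2 g hgX with h | h
              · exact h
              · obtain ⟨i, rfl⟩ := hβsurj g h
                exact absurd hgX (hcon i)
            · intro h; rw [h]; exact ⟨heD, h1⟩
          rw [h4, Finset.card_singleton] at hDX
          exact absurd hDX (by decide)
        -- and some edge of `B` is not
        have hq : ∃ q, β q ∉ cut G X := by
          by_contra hcon
          push Not at hcon
          have h4 : D ∩ cut G X = insert e (D ∩ B) := by
            ext g
            rw [Finset.mem_inter, Finset.mem_insert, Finset.mem_inter]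
            constructor
            · rintro ⟨hg, hgX⟩
              rcases h2 g hgX with h | h
              · exact Or.inl h
              · exact Or.inr ⟨hg, h⟩
            · rintro (h | ⟨hg, h⟩)
              · rw [h]; exact ⟨heD, h1⟩
              · obtain ⟨i, rfl⟩ := hβsurj g h
                exact ⟨hg, hcon i⟩
          rw [h4, Finset.card_insert_of_notMem
            (fun h => he (Finset.mem_inter.1 h).2), Nat.even_add_one] at hDX
          exact hDX hDB
        obtain ⟨p, hp⟩ := hp
        obtain ⟨q, hq⟩ := hq
        obtain ⟨i, hi1, hi2⟩ := step (fun i => β i ∈ cut G X) p q hp hq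
        obtain ⟨j, hj1, hj2⟩ := step (fun i => β i ∉ cut G X) q p hq (fun h => h hp)
        refine ⟨i, j, ?_, hpar i (fun h => hi2 (h.1 hi1)), hpar j (fun h => ?_)⟩
        · rintro rfl
          exact hj1 hi1
        · exact hj1 (h.2 (not_not.1 hj2))
      · obtain ⟨g, hg, hgB⟩ := hBC D h1
        exact absurd hgB (h3 g hg)
  have hcB : B.card ≤ c := hc.2 ⟨B, hB, rfl⟩
  refine ⟨(univ : Finset (Fin (k + 1))).val.map C + Multiset.replicate (c - B.card) (C 0),
    ?_, ?_, ?_⟩
  · rw [Multiset.card_add, Multiset.card_map, Multiset.card_replicate]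
    have h1 : Multiset.card (univ : Finset (Fin (k + 1))).val = k + 1 := by
      rw [Finset.card_val, Finset.card_univ, Fintype.card_fin]
    rw [h1]
    omega
  · intro D hD
    rcases Multiset.mem_add.1 hD with hD | hD
    · rw [Multiset.mem_map] at hD
      obtain ⟨i, _, rfl⟩ := hD
      exact hC1 i
    · rw [Multiset.eq_of_mem_replicate hD]
      exact hC1 0
  · intro e
    rw [Multiset.countP_add, Multiset.countP_map]
    obtain ⟨i, j, hij, hi, hj⟩ := key e
    have h1 : 2 ≤ ((univ : Finset (Fin (k + 1))).filter (fun a => e ∈ C a)).card := by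
      apply Finset.one_lt_card.2
      exact ⟨i, by simp [hi], j, by simp [hj], hij⟩
    have h2 : Multiset.card (Multiset.filter (fun a => e ∈ C a)
        (univ : Finset (Fin (k + 1))).val) =
        ((univ : Finset (Fin (k + 1))).filter (fun a => e ∈ C a)).card := rfl
    omega

end Pool.Agent.Results.MP_596978_co.ForestComplement
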